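import Pool.Agent.Helper38.V2.M2
import Pool.Agent.Helper21.V2.M1
import Pool.Agent.Helper21.V2.M4

/-! Block V2-M5 (MP_71c16a_nt): Minkowski's second theorem. -/

namespace Pool.Agent.V2

open NumberField Finset
open Pool.Agent.Helper64.Vojta (Pl nv nv_mul nv_pos nv_nonneg nv_zero nv_one mult_le_two)

variable {K : Type*} [Field K] [NumberField K] {ι : Type*} [Fintype ι] [DecidableEq ι]

/-- The exponents of the auxiliary box. -/
noncomputable def M5.bp {n : ℕ} (b : Pl K → ι → ℝ) (μ : Fin n → ℝ)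
    (π : InfinitePlace K → (Fin n ≃ ι)) (κ : ℝ) : Pl K → ι → ℝ
  | .inl v, i => b (.inl v) i + μ ((π v).symm i) * v.mult / Module.finrank ℚ K - κ
  | .inr v, i => b (.inr v) i

omit [DecidableEq ι] in
theorem M5.deg_bp {n : ℕ} (hn : Fintype.card ι = n) (b : Pl K → ι → ℝ) (μ : Fin n → ℝ)
    (π : InfinitePlace K → (Fin n ≃ ι)) (κ : ℝ) :
    deg (M5.bp b μ π κ) = deg b + ∑ l, μ l - Fintype.card (InfinitePlace K) * (n * κ) := by
  have hd : (0 : ℝ) < Module.finrank ℚ K := by exact_mod_cast Module.finrank_pos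
  have h1 : ∀ v : InfinitePlace K, ∑ i, M5.bp b μ π κ (.inl v) i =
      ∑ i, b (.inl v) i + (∑ l, μ l) * (v.mult / Module.finrank ℚ K) - n * κ := by
    intro v
    have h2 : ∀ i, M5.bp b μ π κ (.inl v) i =
        b (.inl v) i + μ ((π v).symm i) * ((v.mult : ℝ) / Module.finrank ℚ K) - κ := by
      intro i
      show b (.inl v) i + μ ((π v).symm i) * v.mult / Module.finrank ℚ K - κ = _
      ring
    simp_rw [h2]
    rw [Finset.sum_sub_distrib, Finset.sum_add_distrib, ← Finset.sum_mul,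
      Equiv.sum_comp (π v).symm μ, Finset.sum_const, Finset.card_univ, hn, nsmul_eq_mul]
  have h3 : ∑ v : InfinitePlace K, ((v.mult : ℝ) / Module.finrank ℚ K) = 1 := by
    rw [← Finset.sum_div]
    have h4 : ∑ v : InfinitePlace K, (v.mult : ℝ) = Module.finrank ℚ K := by
      exact_mod_cast InfinitePlace.sum_mult_eq (K := K)
    rw [h4, div_self hd.ne']
  unfold deg gsum
  simp_rw [h1]
  rw [Finset.sum_sub_distrib, Finset.sum_add_distrib, ← Finset.mul_sum, h3, Finset.sum_const,
    Finset.card_univ, nsmul_eq_mul]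
  have h5 : ∑ᶠ v : FinitePlace K, ∑ i, M5.bp b μ π κ (.inr v) i =
      ∑ᶠ v : FinitePlace K, ∑ i, b (.inr v) i := finsum_congr fun v => rfl
  rw [h5]
  ring

/-- M5. Minkowski's second theorem (from M1, M3, M4). -/
theorem minkowski {n : ℕ} (hn : Fintype.card ι = n) (F : Frm K ι) :
    ∃ C : ℝ, ∀ b : Pl K → ι → ℝ, ExpS F.S b → ∃ (x : Fin n → ι → K) (μ : Fin n → ℝ), Monotone μ ∧
      LinearIndependent K x ∧ (∀ l, Bb F (rai b (μ l)) (x l)) ∧ ∑ l, μ l ≤ -(deg b) + C := by
  classical
  obtain ⟨C0, hC0⟩ := first F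
  have hd : (0 : ℝ) < Module.finrank ℚ K := by exact_mod_cast Module.finrank_pos
  set κ : ℝ := Real.log ((n : ℝ) ^ (2 * n)) + 1 with hκ
  refine ⟨C0 + Fintype.card (InfinitePlace K) * (n * κ), fun b hb => ?_⟩
  obtain ⟨x, μ, hmono, hx, hbox, hgr⟩ := greedy hn F b hb
  refine ⟨x, μ, hmono, hx, hbox, ?_⟩
  choose π hπ using fun v : InfinitePlace K =>
    dav hn (.inl v) (F.L (.inl v)) (F.hL _) (b (.inl v)) x hx
  set b' := M5.bp b μ π κ with hb'
  have hbS : ExpS F.S b' := by
    intro v hv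
    funext i
    show b (.inr v) i = 0
    rw [hb v hv]; rfl
  have hdeg := M5.deg_bp hn b μ π κ
  by_contra hcon
  push Not at hcon
  have hdeg' : C0 ≤ deg b' := by rw [hb', hdeg]; linarith
  obtain ⟨y, hy0, hy⟩ := hC0 b' hbS hdeg'
  -- the first member of the flag which contains `y`
  have hQn : y ∈ Submodule.span K (x '' {l' : Fin n | (l' : ℕ) < n}) := by
    have e : {l' : Fin n | (l' : ℕ) < n} = Set.univ := by
      ext l'; simp
    rw [e, Set.image_univ]
    have h1 : Submodule.span K (Set.range x) = ⊤ := by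
      apply LinearIndependent.span_eq_top_of_card_eq_finrank' hx
      rw [Fintype.card_fin, Module.finrank_fintype_fun_eq_card, hn]
    rw [h1]; exact Submodule.mem_top
  have hex : ∃ k, y ∈ Submodule.span K (x '' {l' : Fin n | (l' : ℕ) < k}) := ⟨n, hQn⟩
  set k := Nat.find hex with hk
  have hkspec := Nat.find_spec hex
  rw [← hk] at hkspec
  have hkn : k ≤ n := Nat.find_min' hex hQn
  have hk0 : k ≠ 0 := by
    intro h0
    rw [h0] at hkspec
    simp at hkspec
    exact hy0 hkspec
  have hkl : k - 1 < n := by omega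
  set l : Fin n := ⟨k - 1, hkl⟩ with hl
  have hnpos : (1 : ℝ) ≤ n := by
    have : 1 ≤ n := by omega
    exact_mod_cast this
  have hpow : (0 : ℝ) < (n : ℝ) ^ (2 * n) := by positivity
  have e1 : {l' : Fin n | l' ≤ l} = {l' : Fin n | (l' : ℕ) < k} := by
    ext l'
    simp only [Set.mem_ofPred_eq, Fin.le_def, hl]
    omega
  have e2 : {l' : Fin n | l' < l} = {l' : Fin n | (l' : ℕ) < k - 1} := by
    ext l'
    simp only [Set.mem_ofPred_eq, Fin.lt_def, hl]
  have hyl : y ∈ Submodule.span K (x '' {l' | l' ≤ l}) := by rw [e1]; exact hkspec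
  have hmem : Bb F (rai b (μ l - Module.finrank ℚ K / 2)) y := by
    rw [M2.Bb_rai_iff]
    refine ⟨fun v i => hy (.inr v) i, fun v i => ?_⟩
    obtain ⟨m, hm, h1⟩ := hπ v l y hyl i
    have h2 := hy (.inl v) (π v m)
    have h3 : b' (.inl v) (π v m) =
        b (.inl v) (π v m) + μ m * v.mult / Module.finrank ℚ K - κ := by
      show b (.inl v) (π v m) + μ ((π v).symm (π v m)) * v.mult / Module.finrank ℚ K - κ = _
      rw [Equiv.symm_apply_apply]
    rw [h3] at h2
    have h4 : nv (.inl v) (Matrix.mulVec (F.L (.inl v)) y (π v m)) *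
        Real.exp (-(b (.inl v) (π v m))) ≤ Real.exp (μ m * v.mult / Module.finrank ℚ K - κ) := by
      calc _ ≤ Real.exp (b (.inl v) (π v m) + μ m * v.mult / Module.finrank ℚ K - κ) *
            Real.exp (-(b (.inl v) (π v m))) := mul_le_mul_of_nonneg_right h2 (Real.exp_pos _).le
        _ = _ := by rw [← Real.exp_add]; congr 1; ring
    have h5 : nv (.inl v) (Matrix.mulVec (F.L (.inl v)) y i) * Real.exp (-(b (.inl v) i)) ≤
        Real.exp (μ m * v.mult / Module.finrank ℚ K - 1) := by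
      calc _ ≤ (n : ℝ) ^ (2 * n) * Real.exp (μ m * v.mult / Module.finrank ℚ K - κ) :=
            h1.trans (mul_le_mul_of_nonneg_left h4 hpow.le)
        _ = Real.exp (Real.log ((n : ℝ) ^ (2 * n))) *
              Real.exp (μ m * v.mult / Module.finrank ℚ K - κ) := by rw [Real.exp_log hpow]
        _ = _ := by rw [← Real.exp_add]; congr 1; rw [hκ]; ring
    have h6 : nv (.inl v) (Matrix.mulVec (F.L (.inl v)) y i) ≤
        Real.exp (b (.inl v) i + (μ m * v.mult / Module.finrank ℚ K - 1)) := by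
      have h7 := mul_le_mul_of_nonneg_right h5 (Real.exp_pos (b (.inl v) i)).le
      rw [mul_assoc, ← Real.exp_add, neg_add_cancel, Real.exp_zero, mul_one, ← Real.exp_add] at h7
      rwa [add_comm] at h7
    refine h6.trans (Real.exp_le_exp.mpr ?_)
    have h8 : μ m ≤ μ l := hmono hm
    have h9 : (v.mult : ℝ) ≤ 2 := by exact_mod_cast mult_le_two v
    have h10 : (0 : ℝ) ≤ v.mult := Nat.cast_nonneg _
    have h11 : μ m * v.mult / Module.finrank ℚ K ≤ μ l * v.mult / Module.finrank ℚ K := by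
      gcongr
    have h12 : (μ l - Module.finrank ℚ K / 2) * v.mult / Module.finrank ℚ K =
        μ l * v.mult / Module.finrank ℚ K - v.mult / 2 := by
      field_simp
    rw [h12]
    linarith
  have hlt : μ l - Module.finrank ℚ K / 2 < μ l := by linarith
  have hfin := hgr l _ hlt y hmem
  rw [e2] at hfin
  exact Nat.find_min hex (show k - 1 < k by omega) hfin

end Pool.Agent.V2
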