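import Pool.Agent.Helper21.V2.Defs2

/-! Block V2-CV4 (MP_71c16a_nt): degree of the norm of a homogeneous polynomial on a plane curve. -/

namespace Pool.Agent.V2

open MvPolynomial

section alg

variable {k : Type*} [Field k]

namespace CV4

/-- total degree at most `M` in the two variables -/
def TD (M : ℕ) (g : Polynomial (Polynomial k)) : Prop :=
  ∀ i j : ℕ, M < i + j → (g.coeff j).coeff i = 0

theorem TD.mono {M M' : ℕ} (h : M ≤ M') {g : Polynomial (Polynomial k)} (hg : TD M g) : TD M' g :=
  fun i j hij => hg i j (by omega)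

theorem TD.sub {M : ℕ} {g h : Polynomial (Polynomial k)} (hg : TD M g) (hh : TD M h) :
    TD M (g - h) := by
  intro i j hij
  rw [Polynomial.coeff_sub, Polynomial.coeff_sub, hg i j hij, hh i j hij, sub_zero]

theorem TD.add {M : ℕ} {g h : Polynomial (Polynomial k)} (hg : TD M g) (hh : TD M h) :
    TD M (g + h) := by
  intro i j hij
  rw [Polynomial.coeff_add, Polynomial.coeff_add, hg i j hij, hh i j hij, add_zero]

theorem TD.sum {α : Type*} (s : Finset α) {M : ℕ} {g : α → Polynomial (Polynomial k)}
    (hg : ∀ a ∈ s, TD M (g a)) : TD M (∑ a ∈ s, g a) := by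
  classical
  induction s using Finset.induction_on with
  | empty => intro i j _; simp
  | insert a s ha ih =>
    rw [Finset.sum_insert ha]
    exact (hg a (Finset.mem_insert_self a s)).add (ih fun b hb => hg b (Finset.mem_insert_of_mem hb))

theorem TD.mul {M M' : ℕ} {g h : Polynomial (Polynomial k)} (hg : TD M g) (hh : TD M' h) :
    TD (M + M') (g * h) := by
  intro i j hij
  rw [Polynomial.coeff_mul, Polynomial.finsetSum_coeff]
  refine Finset.sum_eq_zero fun p hp => ?_
  rw [Polynomial.coeff_mul]
  refine Finset.sum_eq_zero fun q hq => ?_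
  rw [Finset.HasAntidiagonal.mem_antidiagonal] at hp hq
  by_cases h1 : M < q.1 + p.1
  · rw [hg _ _ h1, zero_mul]
  · rw [hh q.2 p.2 (by omega), mul_zero]

theorem TD.one : TD 0 (1 : Polynomial (Polynomial k)) := by
  intro i j hij
  rw [Polynomial.coeff_one]
  split_ifs with h
  · rw [Polynomial.coeff_one, if_neg (by omega)]
  · simp

theorem TD.pow {M : ℕ} {g : Polynomial (Polynomial k)} (hg : TD M g) (n : ℕ) :
    TD (n * M) (g ^ n) := by
  induction n with
  | zero => rw [pow_zero, Nat.zero_mul]; exact TD.one
  | succ n ih =>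
    rw [pow_succ]
    exact (ih.mul hg).mono (by rw [Nat.succ_mul])

theorem TD.X : TD 1 (Polynomial.X : Polynomial (Polynomial k)) := by
  intro i j hij
  rw [Polynomial.coeff_X]
  split_ifs with h
  · rw [Polynomial.coeff_one, if_neg (by omega)]
  · simp

theorem TD.C (p : Polynomial k) : TD p.natDegree (Polynomial.C p) := by
  intro i j hij
  rw [Polynomial.coeff_C]
  split_ifs with h
  · exact Polynomial.coeff_eq_zero_of_natDegree_lt (by omega)
  · simp

theorem deh_eq (s : MvPolynomial (Fin 3) k) :
    deh s = ∑ d ∈ s.support, Polynomial.C (Polynomial.C (s.coeff d) * Polynomial.X ^ d 0) *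
      Polynomial.X ^ d 1 := by
  rw [deh, MvPolynomial.aeval_def, MvPolynomial.eval₂_eq']
  refine Finset.sum_congr rfl fun d _ => ?_
  rw [Fin.prod_univ_three]
  simp only [Matrix.cons_val_zero, Matrix.cons_val_one, Matrix.cons_val_two]
  rw [Polynomial.C_mul, Polynomial.C_pow]
  simp only [Polynomial.algebraMap_apply, Algebra.algebraMap_self, RingHom.id_apply]
  simp [mul_assoc]

theorem TD_deh {s : MvPolynomial (Fin 3) k} {N : ℕ} (hs : s.IsHomogeneous N) : TD N (deh s) := by
  rw [deh_eq]
  refine TD.sum _ fun d hd => ?_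
  have h1 : d 0 + d 1 + d 2 = N := by
    have := hs (MvPolynomial.mem_support_iff.mp hd)
    rw [Finsupp.weight_apply, Finsupp.sum_fintype _ _ (by simp), Fin.sum_univ_three] at this
    simpa using this
  have h2 : (Polynomial.C (s.coeff d) * Polynomial.X ^ d 0 : Polynomial k).natDegree ≤ d 0 :=
    Polynomial.natDegree_C_mul_X_pow_le _ _
  refine ((TD.C (Polynomial.C (s.coeff d) * Polynomial.X ^ d 0)).mul (TD.X.pow (d 1))).mono ?_
  omega

theorem coeff_deh_top {f : MvPolynomial (Fin 3) k} {δ : ℕ} (hδ : f.IsHomogeneous δ) :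
    (deh f).coeff δ = Polynomial.C (f.coeff (Finsupp.single 1 δ)) := by
  rw [deh_eq, Polynomial.finsetSum_coeff]
  have h1 : ∀ d ∈ f.support, d ≠ Finsupp.single 1 δ →
      (Polynomial.C (Polynomial.C (f.coeff d) * Polynomial.X ^ d 0) *
        Polynomial.X ^ d 1 : Polynomial (Polynomial k)).coeff δ = 0 := by
    intro d hd hne
    have h2 : d 0 + d 1 + d 2 = δ := by
      have := hδ (MvPolynomial.mem_support_iff.mp hd)
      rw [Finsupp.weight_apply, Finsupp.sum_fintype _ _ (by simp), Fin.sum_univ_three] at this
      simpa using this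
    rw [Polynomial.coeff_C_mul_X_pow, if_neg]
    intro h3
    apply hne
    ext i
    fin_cases i
    · simp; omega
    · simp; omega
    · simp; omega
  by_cases hm : Finsupp.single 1 δ ∈ f.support
  · rw [Finset.sum_eq_single_of_mem _ hm h1]
    simp
  · rw [Finset.sum_eq_zero fun d hd => h1 d hd fun h => hm (h ▸ hd)]
    rw [MvPolynomial.notMem_support_iff.mp hm]
    simp

theorem natDegree_deh_le {s : MvPolynomial (Fin 3) k} {N : ℕ} (hs : s.IsHomogeneous N) :
    (deh s).natDegree ≤ N := by
  rw [Polynomial.natDegree_le_iff_coeff_eq_zero]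
  intro j hj
  ext i
  rw [TD_deh hs i j (by omega), Polynomial.coeff_zero]

theorem TD.mod {f : Polynomial (Polynomial k)} (hf : f.Monic) (hfT : TD f.natDegree f) {M : ℕ} :
    ∀ (n : ℕ) (g : Polynomial (Polynomial k)), g.natDegree < n → TD M g → TD M (g %ₘ f) := by
  intro n
  induction n with
  | zero => intro g h; omega
  | succ n ih =>
    intro g hgn hg
    by_cases h0 : g.degree < f.degree
    · rwa [(Polynomial.modByMonic_eq_self_iff hf).mpr h0]
    · push Not at h0
      have hg0 : g ≠ 0 := by
        rintro rfl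
        rw [Polynomial.degree_zero, le_bot_iff, Polynomial.degree_eq_bot] at h0
        rw [h0] at hf
        exact Polynomial.not_monic_zero hf
      have hle : f.natDegree ≤ g.natDegree := Polynomial.natDegree_le_natDegree h0
      set t : Polynomial (Polynomial k) :=
        Polynomial.C g.leadingCoeff * Polynomial.X ^ (g.natDegree - f.natDegree) with ht
      have hlt : (g - f * t).degree < g.degree := by
        have := Polynomial.div_wf_lemma ⟨h0, hg0⟩ hf
        rwa [ht]
      have htT : TD (M - f.natDegree) t := by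
        have h1 : g.leadingCoeff.natDegree + g.natDegree ≤ M := by
          by_contra hcon
          have h2 := hg g.leadingCoeff.natDegree g.natDegree (by omega)
          have h3 : g.leadingCoeff ≠ 0 := Polynomial.leadingCoeff_ne_zero.mpr hg0
          exact (Polynomial.leadingCoeff_ne_zero.mpr h3) h2
        refine ((TD.C g.leadingCoeff).mul (TD.X.pow (g.natDegree - f.natDegree))).mono ?_
        omega
      have hM : f.natDegree ≤ M := by
        by_contra hcon
        have h1 : g.leadingCoeff.natDegree + g.natDegree ≤ M := by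
          by_contra hcon
          have h2 := hg g.leadingCoeff.natDegree g.natDegree (by omega)
          have h3 : g.leadingCoeff ≠ 0 := Polynomial.leadingCoeff_ne_zero.mpr hg0
          exact (Polynomial.leadingCoeff_ne_zero.mpr h3) h2
        omega
      have hsub : TD M (g - f * t) := hg.sub ((hfT.mul htT).mono (by omega))
      have hmod : g %ₘ f = (g - f * t) %ₘ f := by
        rw [Polynomial.sub_modByMonic, Polynomial.self_mul_modByMonic hf, sub_zero]
      rw [hmod]
      by_cases h5 : g - f * t = 0
      · rw [h5, Polynomial.zero_modByMonic]; intro i j _; simp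
      · refine ih _ ?_ hsub
        have := Polynomial.natDegree_lt_natDegree h5 hlt
        omega

/-- degree of the determinant of a matrix of polynomials with graded degree bounds -/
theorem natDegree_det_le {δ N : ℕ} (M : Matrix (Fin δ) (Fin δ) (Polynomial k))
    (h : ∀ i j : Fin δ, ∀ a : ℕ, N + j < a + i → (M i j).coeff a = 0) :
    M.det.natDegree ≤ δ * N := by
  rw [Matrix.det_apply]
  refine Polynomial.natDegree_sum_le_of_forall_le _ _ fun σ _ => ?_
  refine (Polynomial.natDegree_smul_le _ _).trans ?_
  by_cases h0 : ∃ j, M (σ j) j = 0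
  · obtain ⟨j, hj⟩ := h0
    have hz : ∏ i, M (σ i) i = 0 := Finset.prod_eq_zero (Finset.mem_univ j) hj
    rw [hz, Polynomial.natDegree_zero]
    exact Nat.zero_le _
  · push Not at h0
    refine (Polynomial.natDegree_prod_le _ _).trans ?_
    have h1 : ∀ j : Fin δ, (M (σ j) j).natDegree + (σ j : ℕ) ≤ N + j := by
      intro j
      by_contra hcon
      have h2 := h (σ j) j (M (σ j) j).natDegree (by omega)
      exact (Polynomial.leadingCoeff_ne_zero.mpr (h0 j)) h2
    have h2 : ∑ j : Fin δ, ((M (σ j) j).natDegree + (σ j : ℕ)) ≤ ∑ j : Fin δ, (N + (j : ℕ)) :=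
      Finset.sum_le_sum fun j _ => h1 j
    rw [Finset.sum_add_distrib, Finset.sum_add_distrib,
      Equiv.sum_comp σ (fun j : Fin δ => (j : ℕ)), Finset.sum_const, Finset.card_univ,
      Fintype.card_fin, smul_eq_mul] at h2
    omega

end CV4

/-- CV4. Degree of the norm of a homogeneous polynomial, on a curve `f` monic in `X 1`:
`y` a root of `f (x, Y, 1)` generating `E`. -/
theorem norm_deg (E : Type*) [Field E] [Algebra (RatFunc k) E] [Algebra (Polynomial k) E]
    [IsScalarTower (Polynomial k) (RatFunc k) E]
    {f : MvPolynomial (Fin 3) k} {δ : ℕ} (hδ : f.IsHomogeneous δ) (h1 : 1 ≤ δ)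
    (hc : f.coeff (Finsupp.single 1 δ) ≠ 0) (y : E) (hy : Polynomial.aeval y (deh f) = 0)
    (hgen : IntermediateField.adjoin (RatFunc k) {y} = ⊤)
    (hdeg : Module.finrank (RatFunc k) E = δ)
    (s : MvPolynomial (Fin 3) k) (N : ℕ) (hs : s.IsHomogeneous N) :
    ∃ P : Polynomial k, P.natDegree ≤ δ * N ∧
      Algebra.norm (RatFunc k) (Polynomial.aeval y (deh s)) = algebraMap (Polynomial k) (RatFunc k) P := by
  classical
  -- the monic polynomial
  set c := f.coeff (Finsupp.single 1 δ) with hcdef
  set fm : Polynomial (Polynomial k) := Polynomial.C (Polynomial.C c⁻¹) * deh f with hfm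
  have hcoefδ : fm.coeff δ = 1 := by
    rw [hfm, Polynomial.coeff_C_mul, CV4.coeff_deh_top hδ, ← hcdef, ← Polynomial.C_mul,
      inv_mul_cancel₀ hc, Polynomial.C_1]
  have hfmle : fm.natDegree ≤ δ :=
    (Polynomial.natDegree_C_mul_le _ _).trans (CV4.natDegree_deh_le hδ)
  have hfmd : fm.natDegree = δ :=
    le_antisymm hfmle (Polynomial.le_natDegree_of_ne_zero (by rw [hcoefδ]; exact one_ne_zero))
  have hmonic : fm.Monic := by
    rw [Polynomial.Monic, Polynomial.leadingCoeff, hfmd, hcoefδ]
  have hfmT : CV4.TD fm.natDegree fm := by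
    rw [hfmd]
    have := (CV4.TD.C (Polynomial.C c⁻¹ : Polynomial k)).mul (CV4.TD_deh hδ)
    rw [Polynomial.natDegree_C, zero_add] at this
    exact this
  have hfmy : Polynomial.aeval y fm = 0 := by
    rw [hfm, map_mul, hy, mul_zero]
  -- the power basis
  have : FiniteDimensional (RatFunc k) E :=
    Module.finite_of_finrank_pos (by rw [hdeg]; exact h1)
  have hint : IsIntegral (RatFunc k) y := IsIntegral.of_finite _ _
  have hmin : (minpoly (RatFunc k) y).natDegree = δ := by
    rw [← IntermediateField.adjoin.finrank hint, hgen, IntermediateField.finrank_top', hdeg]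
  have hli : LinearIndependent (RatFunc k) (fun i : Fin δ => y ^ (i : ℕ)) := by
    have := linearIndependent_pow (K := RatFunc k) y
    rw [hmin] at this
    exact this
  have : Nonempty (Fin δ) := ⟨⟨0, h1⟩⟩
  let b : Module.Basis (Fin δ) (RatFunc k) E :=
    basisOfLinearIndependentOfCardEqFinrank hli (by rw [Fintype.card_fin, hdeg])
  have hb : ∀ i, b i = y ^ (i : ℕ) := fun i => by
    rw [coe_basisOfLinearIndependentOfCardEqFinrank]
  -- the matrix
  set m : Fin δ → Polynomial (Polynomial k) := fun j => (deh s * Polynomial.X ^ (j : ℕ)) %ₘ fm with hm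
  set M : Matrix (Fin δ) (Fin δ) (Polynomial k) := fun i j => (m j).coeff i with hM
  have hmdeg : ∀ j, (m j).natDegree < δ := by
    intro j
    have := Polynomial.natDegree_modByMonic_lt (deh s * Polynomial.X ^ (j : ℕ)) hmonic (by
      intro h
      rw [h, Polynomial.natDegree_one] at hfmd
      omega)
    rwa [hfmd] at this
  have hmul : ∀ j : Fin δ, Polynomial.aeval y (deh s) * y ^ (j : ℕ) =
      ∑ i : Fin δ, algebraMap (Polynomial k) (RatFunc k) (M i j) • b i := by
    intro j
    have e1 : Polynomial.aeval y (deh s) * y ^ (j : ℕ) = Polynomial.aeval y (m j) := by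
      have e2 := congrArg (Polynomial.aeval y)
        (Polynomial.modByMonic_add_div (deh s * Polynomial.X ^ (j : ℕ)) fm)
      rw [map_add, map_mul, hfmy, zero_mul, add_zero, map_mul, map_pow, Polynomial.aeval_X] at e2
      exact e2.symm
    rw [e1, Polynomial.aeval_eq_sum_range' (hmdeg j), ← Fin.sum_univ_eq_sum_range
      (fun i => (m j).coeff i • y ^ i) δ]
    refine Finset.sum_congr rfl fun i _ => ?_
    rw [hb, algebraMap_smul]
  have hmat : Algebra.leftMulMatrix b (Polynomial.aeval y (deh s)) =
      M.map (algebraMap (Polynomial k) (RatFunc k)) := by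
    ext i j
    rw [Algebra.leftMulMatrix_eq_repr_mul, hb, hmul j, Matrix.map_apply]
    rw [b.repr_sum_self]
  refine ⟨M.det, ?_, ?_⟩
  · refine CV4.natDegree_det_le M fun i j a hij => ?_
    have h2 : CV4.TD (N + j) (m j) := by
      refine CV4.TD.mod hmonic hfmT _ _ (Nat.lt_succ_self _) ?_
      have := (CV4.TD_deh hs).mul ((CV4.TD.X (k := k)).pow (j : ℕ))
      rwa [mul_one] at this
    exact h2 a i hij
  · rw [Algebra.norm_eq_matrix_det b, hmat]
    exact (RingHom.map_det (algebraMap (Polynomial k) (RatFunc k)) M).symm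

end alg

end Pool.Agent.V2
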