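import Pool.Agent.Helper21.V2.Defs

/-! Block V2-M2 (MP_71c16a_nt): boxes are finite, greedy basis. -/

namespace Pool.Agent.V2

open NumberField Finset
open Pool.Agent.Helper64.Vojta (Pl nv nv_mul nv_pos nv_nonneg nv_zero nv_one nv_sum_le fin_support_nv)

variable {K : Type*} [Field K] [NumberField K] {ι : Type*} [Fintype ι] [DecidableEq ι]

/-- At one place, a vector in a box has bounded coordinates. -/
theorem M2.exists_bound (F : Frm K ι) (b : Pl K → ι → ℝ) (v : Pl K) :
    ∃ B : ℝ, ∀ x : ι → K, Bb F b x → ∀ i, nv v (x i) ≤ B := by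
  classical
  set A : Matrix ι ι K := (F.L v)⁻¹ with hA
  set C : ℝ := ∑ i, ∑ j, nv v (A i j) * Real.exp (b v j) with hC
  have hterm : ∀ i j, 0 ≤ nv v (A i j) * Real.exp (b v j) := fun i j =>
    mul_nonneg (nv_nonneg _ _) (Real.exp_pos _).le
  refine ⟨((Fintype.card ι : ℝ) + 1) ^ 2 * C, fun x hx i => ?_⟩
  have hx' : x = Matrix.mulVec A (Matrix.mulVec (F.L v) x) := by
    rw [Matrix.mulVec_mulVec, hA, Matrix.nonsing_inv_mul _ (isUnit_iff_ne_zero.mpr (F.hL v)),
      Matrix.one_mulVec]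
  have h1 : x i = ∑ j, A i j * Matrix.mulVec (F.L v) x j := by
    conv_lhs => rw [hx']
    rfl
  rw [h1]
  have h2 := nv_sum_le v (Finset.univ : Finset ι) (fun j => A i j * Matrix.mulVec (F.L v) x j) C
    (Finset.sum_nonneg fun i _ => Finset.sum_nonneg fun j _ => hterm i j) (fun j _ => by
      rw [nv_mul]
      calc nv v (A i j) * nv v (Matrix.mulVec (F.L v) x j) ≤ nv v (A i j) * Real.exp (b v j) :=
            mul_le_mul_of_nonneg_left (hx v j) (nv_nonneg _ _)
        _ ≤ ∑ j, nv v (A i j) * Real.exp (b v j) :=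
            Finset.single_le_sum (f := fun j => nv v (A i j) * Real.exp (b v j))
              (fun j _ => hterm i j) (Finset.mem_univ j)
        _ ≤ C := Finset.single_le_sum (f := fun i => ∑ j, nv v (A i j) * Real.exp (b v j))
              (fun i _ => Finset.sum_nonneg fun j _ => hterm i j) (Finset.mem_univ i))
  rwa [Finset.card_univ] at h2

/-- Elements of `K` with bounded absolute values, integral outside `S`, are finite in number. -/
theorem M2.finite_bdd (S : Finset (FinitePlace K)) (B : ℝ) (hB : 1 ≤ B) :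
    {y : K | (∀ v : InfinitePlace K, nv (.inl v) y ≤ B) ∧ (∀ v ∈ S, nv (.inr v) y ≤ B) ∧
      ∀ v : FinitePlace K, v ∉ S → nv (.inr v) y ≤ 1}.Finite := by
  classical
  refine (NumberField.finite_setOfPred_mulHeight₁_le K
    (B ^ Fintype.card (InfinitePlace K) * B ^ S.card)).subset ?_
  rintro y ⟨h1, h2, h3⟩
  show Height.mulHeight₁ y ≤ _
  rw [NumberField.mulHeight₁_eq]
  have hmax : ∀ v : InfinitePlace K, max (v y) 1 ^ v.mult ≤ B := by
    intro v
    rcases le_total (v y) 1 with h | h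
    · rw [max_eq_right h, one_pow]; exact hB
    · rw [max_eq_left h]; exact h1 v
  have hfin : ∏ᶠ v : FinitePlace K, max (v y) 1 = ∏ v ∈ S, max (v y) 1 := by
    refine finprod_eq_prod_of_mulSupport_subset _ ?_
    intro v hv
    by_contra hvS
    refine hv (max_eq_right (h3 v (by simpa using hvS)))
  rw [hfin]
  refine mul_le_mul ?_ ?_ (Finset.prod_nonneg fun v _ => le_trans zero_le_one (le_max_right _ _))
    (by positivity)
  · calc ∏ v : InfinitePlace K, max (v y) 1 ^ v.mult ≤ ∏ _v : InfinitePlace K, B :=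
          Finset.prod_le_prod (fun v _ => by positivity) fun v _ => hmax v
      _ = B ^ Fintype.card (InfinitePlace K) := by rw [Finset.prod_const, Finset.card_univ]
  · calc ∏ v ∈ S, max (v y) 1 ≤ ∏ _v ∈ S, B :=
          Finset.prod_le_prod (fun v _ => by positivity) fun v hv => max_le (h2 v hv) hB
      _ = B ^ S.card := by rw [Finset.prod_const]

/-- M2. Boxes are finite. -/
theorem Bb_finite (F : Frm K ι) (b : Pl K → ι → ℝ) (hb : ExpS F.S b) :
    {x | Bb F b x}.Finite := by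
  classical
  choose B hB using fun v : Pl K => M2.exists_bound F b v
  set C : ℝ := 1 + ∑ v : InfinitePlace K, |B (.inl v)| + ∑ v ∈ F.S, |B (.inr v)| with hC
  have hs1 : 0 ≤ ∑ v : InfinitePlace K, |B (.inl v)| := Finset.sum_nonneg fun v _ => abs_nonneg _
  have hs2 : 0 ≤ ∑ v ∈ F.S, |B (.inr v)| := Finset.sum_nonneg fun v _ => abs_nonneg _
  have hfin := Set.Finite.pi' (fun _ : ι => M2.finite_bdd (K := K) F.S C (by linarith))
  refine hfin.subset ?_
  intro x hx i
  refine ⟨fun v => ?_, fun v hv => ?_, fun v hv => ?_⟩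
  · have h1 := hB (.inl v) x hx i
    have h2 : |B (.inl v)| ≤ ∑ v : InfinitePlace K, |B (.inl v)| :=
      Finset.single_le_sum (f := fun v : InfinitePlace K => |B (.inl v)|)
        (fun v _ => abs_nonneg _) (Finset.mem_univ v)
    have h3 := le_abs_self (B (.inl v))
    linarith
  · have h1 := hB (.inr v) x hx i
    have h2 : |B (.inr v)| ≤ ∑ v ∈ F.S, |B (.inr v)| :=
      Finset.single_le_sum (f := fun v : FinitePlace K => |B (.inr v)|)
        (fun v _ => abs_nonneg _) hv
    have h3 := le_abs_self (B (.inr v))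
    linarith
  · have h1 := hx (.inr v) i
    rw [F.hS v hv, Matrix.one_mulVec, hb v hv] at h1
    simpa using h1

/-- a nonzero element, integral at all finite places and small at those of `T` -/
theorem M2.exists_small (T : Finset (FinitePlace K)) (ε : ℝ) (hε : 0 < ε) :
    ∃ N : K, N ≠ 0 ∧ (∀ v : FinitePlace K, nv (.inr v) N ≤ 1) ∧ ∀ v ∈ T, nv (.inr v) N ≤ ε := by
  classical
  have h1 : ∀ v : FinitePlace K, ∃ a : 𝓞 K, a ≠ 0 ∧ v (a : K) < 1 := by
    intro v
    obtain ⟨a, ha, ha0⟩ := Submodule.exists_mem_ne_zero_of_ne_bot (FinitePlace.maximalIdeal v).ne_bot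
    refine ⟨a, ha0, ?_⟩
    rw [← FinitePlace.norm_embedding_eq v]
    exact (FinitePlace.norm_lt_one_iff_mem K _ _).mpr ha
  choose a ha0 ha using h1
  have hint : ∀ (v : FinitePlace K) (z : 𝓞 K), v (z : K) ≤ 1 := by
    intro v z
    rw [← FinitePlace.norm_embedding_eq v]
    exact FinitePlace.norm_le_one K _ _
  have h2 : ∀ v : FinitePlace K, ∃ k : ℕ, v (a v : K) ^ k < ε := fun v =>
    exists_pow_lt_of_lt_one hε (ha v)
  choose k hk using h2
  set N : 𝓞 K := ∏ v ∈ T, a v ^ k v with hN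
  refine ⟨(N : K), ?_, fun v => hint v N, fun v hv => ?_⟩
  · have : N ≠ 0 := Finset.prod_ne_zero_iff.mpr fun v _ => pow_ne_zero _ (ha0 v)
    exact_mod_cast this
  · have h3 : N = a v ^ k v * ∏ w ∈ T.erase v, a w ^ k w := (Finset.mul_prod_erase T _ hv).symm
    show v (N : K) ≤ ε
    rw [h3]
    push_cast
    rw [map_mul, map_pow]
    have h4 : v (((∏ w ∈ T.erase v, a w ^ k w : 𝓞 K) : 𝓞 K) : K) ≤ 1 := hint v _
    push_cast at h4
    calc v (a v : K) ^ k v * v (∏ w ∈ T.erase v, (a w : K) ^ k w) ≤ v (a v : K) ^ k v * 1 :=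
          mul_le_mul_of_nonneg_left h4 (pow_nonneg (apply_nonneg _ _) _)
      _ ≤ ε := by rw [mul_one]; exact (hk v).le

/-- the finite part of a box -/
def M2.Fb (F : Frm K ι) (b : Pl K → ι → ℝ) (x : ι → K) : Prop :=
  ∀ (v : FinitePlace K) i, nv (.inr v) (Matrix.mulVec (F.L (.inr v)) x i) ≤ Real.exp (b (.inr v) i)

theorem M2.exists_Fb (F : Frm K ι) (b : Pl K → ι → ℝ) (hb : ExpS F.S b) (y : ι → K) :
    ∃ N : K, N ≠ 0 ∧ M2.Fb F b (N • y) := by
  classical
  -- the finite set of bad places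
  have hfin : (⋃ i ∈ {i | y i ≠ 0}, Function.mulSupport (fun w : FinitePlace K => nv (.inr w) (y i))).Finite :=
    Set.Finite.biUnion (Set.toFinite _) fun i hi => fin_support_nv hi
  set T : Finset (FinitePlace K) := hfin.toFinset ∪ F.S with hT
  have hout : ∀ v ∉ T, ∀ i, nv (.inr v) (y i) ≤ 1 := by
    intro v hv i
    by_cases hyi : y i = 0
    · rw [hyi, nv_zero]; exact zero_le_one
    · by_contra hcon
      apply hv
      rw [hT, Finset.mem_union]
      left
      rw [Set.Finite.mem_toFinset]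
      simp only [Set.mem_iUnion]
      exact ⟨i, hyi, fun h => hcon (le_of_eq h)⟩
  -- the size at the bad places
  set M : ℝ := 1 + ∑ v ∈ T, ∑ i, nv (.inr v) (Matrix.mulVec (F.L (.inr v)) y i) with hM
  have hM0 : ∀ v ∈ T, ∀ i, nv (.inr v) (Matrix.mulVec (F.L (.inr v)) y i) ≤ M := by
    intro v hv i
    have h1 : nv (.inr v) (Matrix.mulVec (F.L (.inr v)) y i) ≤
        ∑ i, nv (.inr v) (Matrix.mulVec (F.L (.inr v)) y i) :=
      Finset.single_le_sum (f := fun i => nv (.inr v) (Matrix.mulVec (F.L (.inr v)) y i))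
        (fun i _ => nv_nonneg _ _) (Finset.mem_univ i)
    have h2 : ∑ i, nv (.inr v) (Matrix.mulVec (F.L (.inr v)) y i) ≤
        ∑ v ∈ T, ∑ i, nv (.inr v) (Matrix.mulVec (F.L (.inr v)) y i) :=
      Finset.single_le_sum (f := fun v : FinitePlace K => ∑ i, nv (.inr v) (Matrix.mulVec (F.L (.inr v)) y i))
        (fun v _ => Finset.sum_nonneg fun i _ => nv_nonneg _ _) hv
    linarith
  have hMpos : 0 < M := by
    have : 0 ≤ ∑ v ∈ T, ∑ i, nv (.inr v) (Matrix.mulVec (F.L (.inr v)) y i) :=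
      Finset.sum_nonneg fun v _ => Finset.sum_nonneg fun i _ => nv_nonneg _ _
    linarith
  -- a lower bound for the exponentials
  set E : ℝ := ∑ v ∈ T, ∑ i, |b (.inr v) i| with hE
  have hE0 : ∀ v ∈ T, ∀ i, -E ≤ b (.inr v) i := by
    intro v hv i
    have h1 : |b (.inr v) i| ≤ ∑ i, |b (.inr v) i| :=
      Finset.single_le_sum (f := fun i => |b (.inr v) i|) (fun i _ => abs_nonneg _) (Finset.mem_univ i)
    have h2 : ∑ i, |b (.inr v) i| ≤ E :=
      Finset.single_le_sum (f := fun v : FinitePlace K => ∑ i, |b (.inr v) i|)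
        (fun v _ => Finset.sum_nonneg fun i _ => abs_nonneg _) hv
    have h3 := neg_abs_le (b (.inr v) i)
    linarith
  obtain ⟨N, hN0, hN1, hN2⟩ := M2.exists_small (K := K) T (Real.exp (-E) / M)
    (div_pos (Real.exp_pos _) hMpos)
  refine ⟨N, hN0, fun v i => ?_⟩
  rw [Matrix.mulVec_smul, Pi.smul_apply, smul_eq_mul, nv_mul]
  by_cases hv : v ∈ T
  · calc nv (.inr v) N * nv (.inr v) (Matrix.mulVec (F.L (.inr v)) y i) ≤ Real.exp (-E) / M * M :=
          mul_le_mul (hN2 v hv) (hM0 v hv i) (nv_nonneg _ _) (div_pos (Real.exp_pos _) hMpos).le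
      _ = Real.exp (-E) := by field_simp
      _ ≤ Real.exp (b (.inr v) i) := Real.exp_le_exp.mpr (hE0 v hv i)
  · have hvS : v ∉ F.S := fun h => hv (by rw [hT]; exact Finset.mem_union_right _ h)
    rw [F.hS v hvS, Matrix.one_mulVec, hb v hvS]
    simp only [Pi.zero_apply, Real.exp_zero]
    calc nv (.inr v) N * nv (.inr v) (y i) ≤ 1 * 1 :=
          mul_le_mul (hN1 v) (hout v hv i) (nv_nonneg _ _) zero_le_one
      _ = 1 := one_mul 1

theorem M2.Bb_rai_iff (F : Frm K ι) (b : Pl K → ι → ℝ) (a : ℝ) (x : ι → K) :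
    Bb F (rai b a) x ↔ M2.Fb F b x ∧ ∀ (v : InfinitePlace K) i,
      nv (.inl v) (Matrix.mulVec (F.L (.inl v)) x i) ≤
        Real.exp (b (.inl v) i + a * v.mult / Module.finrank ℚ K) := by
  constructor
  · intro h
    exact ⟨fun v i => h (.inr v) i, fun v i => h (.inl v) i⟩
  · rintro ⟨h1, h2⟩ v i
    rcases v with v | v
    · exact h2 v i
    · exact h1 v i

omit [Fintype ι] [DecidableEq ι] in
theorem M2.exp_rai (b : Pl K → ι → ℝ) (S : Finset (FinitePlace K)) (hb : ExpS S b) (a : ℝ) :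
    ExpS S (rai b a) := by
  intro v hv
  funext i
  show b (.inr v) i = 0
  rw [hb v hv]; rfl

theorem M2.rai_mono (F : Frm K ι) (b : Pl K → ι → ℝ) {a a' : ℝ} (h : a ≤ a') {x : ι → K}
    (hx : Bb F (rai b a) x) : Bb F (rai b a') x := by
  rw [M2.Bb_rai_iff] at hx ⊢
  refine ⟨hx.1, fun v i => (hx.2 v i).trans (Real.exp_le_exp.mpr ?_)⟩
  have hd : (0 : ℝ) < Module.finrank ℚ K := by exact_mod_cast Module.finrank_pos
  gcongr

theorem M2.exists_min (F : Frm K ι) (b : Pl K → ι → ℝ) (hb : ExpS F.S b)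
    (W : Submodule K (ι → K)) (hW : W ≠ ⊤) :
    ∃ (y : ι → K) (m : ℝ), y ∉ W ∧ Bb F (rai b m) y ∧
      ∀ μ' < m, ∀ z, Bb F (rai b μ') z → z ∈ W := by
  classical
  have hd : (0 : ℝ) < Module.finrank ℚ K := by exact_mod_cast Module.finrank_pos
  have hmult : ∀ v : InfinitePlace K, (0 : ℝ) < v.mult := fun v => by
    exact_mod_cast v.mult_pos
  set A : (ι → K) → Set ℝ := fun y => {a | Bb F (rai b a) y} with hA
  have hclosed : ∀ y, IsClosed (A y) := by
    intro y
    by_cases hy : M2.Fb F b y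
    · have e : A y = ⋂ (v : InfinitePlace K), ⋂ (i : ι), {a : ℝ |
          nv (.inl v) (Matrix.mulVec (F.L (.inl v)) y i) ≤
            Real.exp (b (.inl v) i + a * v.mult / Module.finrank ℚ K)} := by
        ext a
        simp only [hA, Set.mem_ofPred_eq, Set.mem_iInter, M2.Bb_rai_iff]
        exact ⟨fun h => h.2, fun h => ⟨hy, h⟩⟩
      rw [e]
      refine isClosed_iInter fun v => isClosed_iInter fun i => ?_
      exact isClosed_le continuous_const (by fun_prop)
    · have e : A y = ∅ := by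
        ext a
        simp only [hA, Set.mem_ofPred_eq, M2.Bb_rai_iff, Set.mem_empty_iff_false, iff_false]
        exact fun h => hy h.1
      rw [e]; exact isClosed_empty
  have hne : ∀ y, M2.Fb F b y → (A y).Nonempty := by
    intro y hy
    have h1 : ∀ᶠ a : ℝ in Filter.atTop, ∀ (v : InfinitePlace K) (i : ι),
        nv (.inl v) (Matrix.mulVec (F.L (.inl v)) y i) ≤
          Real.exp (b (.inl v) i + a * v.mult / Module.finrank ℚ K) := by
      rw [Filter.eventually_all]
      intro v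
      rw [Filter.eventually_all]
      intro i
      have h2 : Filter.Tendsto (fun a : ℝ => Real.exp (b (.inl v) i + a * v.mult / Module.finrank ℚ K))
          Filter.atTop Filter.atTop := by
        refine Real.tendsto_exp_atTop.comp ?_
        refine Filter.tendsto_atTop_add_const_left _ _ ?_
        have h3 : (fun a : ℝ => a * v.mult / Module.finrank ℚ K) =
            fun a : ℝ => a * ((v.mult : ℝ) / Module.finrank ℚ K) := by
          funext a; ring
        rw [h3]
        exact Filter.tendsto_id.atTop_mul_const (div_pos (hmult v) hd)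
      exact h2.eventually_ge_atTop _
    obtain ⟨a, ha⟩ := h1.exists
    exact ⟨a, (M2.Bb_rai_iff F b a y).mpr ⟨hy, ha⟩⟩
  have hbdd : ∀ y, y ≠ 0 → BddBelow (A y) := by
    intro y hy
    obtain ⟨v⟩ : Nonempty (InfinitePlace K) := inferInstance
    have hLy : Matrix.mulVec (F.L (.inl v)) y ≠ 0 := by
      intro h
      apply hy
      exact Matrix.eq_zero_of_mulVec_eq_zero (F.hL _) h
    obtain ⟨i, hi⟩ := Function.ne_iff.mp hLy
    refine ⟨(Real.log (nv (.inl v) (Matrix.mulVec (F.L (.inl v)) y i)) - b (.inl v) i) *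
      Module.finrank ℚ K / v.mult, fun a ha => ?_⟩
    have h1 := ((M2.Bb_rai_iff F b a y).mp ha).2 v i
    have h2 := Real.log_le_log (nv_pos (.inl v) hi) h1
    rw [Real.log_exp] at h2
    rw [div_le_iff₀ (hmult v)]
    have h3 : (Real.log (nv (.inl v) (Matrix.mulVec (F.L (.inl v)) y i)) - b (.inl v) i) ≤
        a * v.mult / Module.finrank ℚ K := by linarith
    rw [le_div_iff₀ hd] at h3
    exact h3
  set α : (ι → K) → ℝ := fun y => sInf (A y) with hα
  have hmem : ∀ y, y ≠ 0 → M2.Fb F b y → α y ∈ A y := fun y hy hF =>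
    (hclosed y).csInf_mem (hne y hF) (hbdd y hy)
  have hle : ∀ y, y ≠ 0 → ∀ a ∈ A y, α y ≤ a := fun y hy a ha => csInf_le (hbdd y hy) ha
  -- a vector outside `W`
  obtain ⟨y1, hy1⟩ : ∃ y1, y1 ∉ W := by
    by_contra hcon
    push Not at hcon
    exact hW (eq_top_iff.mpr fun z _ => hcon z)
  obtain ⟨N, hN0, hNF⟩ := M2.exists_Fb F b hb y1
  set y0 : ι → K := N • y1 with hy0def
  have hy0 : y0 ∉ W := by
    intro h
    exact hy1 ((Submodule.smul_mem_iff W hN0).mp h)
  have hy0' : y0 ≠ 0 := fun h => hy0 (by rw [h]; exact W.zero_mem)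
  set T : Set (ι → K) := {z | Bb F (rai b (α y0)) z ∧ z ∉ W} with hT
  have hTfin : T.Finite := (Bb_finite F (rai b (α y0)) (M2.exp_rai b F.S hb _)).subset
    fun z hz => hz.1
  have hy0T : y0 ∈ T := ⟨hmem y0 hy0' hNF, hy0⟩
  obtain ⟨y, hyT, hymin⟩ := Set.exists_min_image T α hTfin ⟨y0, hy0T⟩
  have hy' : y ≠ 0 := fun h => hyT.2 (by rw [h]; exact W.zero_mem)
  have hyF : M2.Fb F b y := ((M2.Bb_rai_iff F b _ y).mp hyT.1).1
  refine ⟨y, α y, hyT.2, hmem y hy' hyF, fun μ' hμ' z hz => ?_⟩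
  by_contra hzW
  have hz' : z ≠ 0 := fun h => hzW (by rw [h]; exact W.zero_mem)
  have h1 : α z ≤ μ' := hle z hz' μ' hz
  have h2 : α y ≤ α y0 := hymin y0 hy0T
  have h3 : z ∈ T := ⟨M2.rai_mono F b (by linarith) hz, hzW⟩
  have h4 := hymin z h3
  linarith

/-- M3. Greedy basis. -/
theorem greedy {n : ℕ} (hn : Fintype.card ι = n) (F : Frm K ι) (b : Pl K → ι → ℝ)
    (hb : ExpS F.S b) :
    ∃ (x : Fin n → ι → K) (μ : Fin n → ℝ), Monotone μ ∧ LinearIndependent K x ∧
      (∀ l, Bb F (rai b (μ l)) (x l)) ∧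
      ∀ l, ∀ μ' < μ l, ∀ y, Bb F (rai b μ') y → y ∈ Submodule.span K (x '' {l' | l' < l}) := by
  classical
  have hpick : ∀ W : Submodule K (ι → K), ∃ p : (ι → K) × ℝ, W ≠ ⊤ →
      p.1 ∉ W ∧ Bb F (rai b p.2) p.1 ∧ ∀ μ' < p.2, ∀ z, Bb F (rai b μ') z → z ∈ W := by
    intro W
    by_cases hW : W = ⊤
    · exact ⟨(0, 0), fun h => absurd hW h⟩
    · obtain ⟨y, m, h⟩ := M2.exists_min F b hb W hW
      exact ⟨(y, m), fun _ => h⟩
  choose pick hpick using hpick
  obtain ⟨W, hW0, hWs⟩ : ∃ W : ℕ → Submodule K (ι → K), W 0 = ⊥ ∧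
      ∀ k, W (k + 1) = W k ⊔ Submodule.span K {(pick (W k)).1} :=
    ⟨fun k => Nat.rec ⊥ (fun _ V => V ⊔ Submodule.span K {(pick V).1}) k, rfl, fun k => rfl⟩
  have hfr : ∀ k ≤ n, Module.finrank K (W k) = k := by
    intro k
    induction k with
    | zero => intro _; rw [hW0]; exact finrank_bot K _
    | succ k ih =>
      intro hk
      have h1 := ih (by omega)
      have h2 : W k ≠ ⊤ := by
        intro h
        rw [h, finrank_top, Module.finrank_fintype_fun_eq_card, hn] at h1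
        omega
      rw [hWs, Submodule.finrank_sup_span_singleton (hpick _ h2).1, h1]
  have hWne : ∀ k < n, W k ≠ ⊤ := by
    intro k hk h
    have h1 := hfr k hk.le
    rw [h, finrank_top, Module.finrank_fintype_fun_eq_card, hn] at h1
    omega
  set xs : ℕ → ι → K := fun k => (pick (W k)).1 with hxs
  have hspan : ∀ k, W k = Submodule.span K (xs '' Set.Iio k) := by
    intro k
    induction k with
    | zero => rw [hW0]; simp
    | succ k ih =>
      have e : Set.Iio (k + 1) = insert k (Set.Iio k) := by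
        ext j; simp only [Set.mem_Iio, Set.mem_insert_iff]; omega
      rw [hWs, e, Set.image_insert_eq, Submodule.span_insert, ← ih, sup_comm]
  have hWmono : Monotone W := monotone_nat_of_le_succ fun k => by rw [hWs]; exact le_sup_left
  have himg : ∀ l : Fin n, (fun l : Fin n => xs l) '' {l' | l' < l} = xs '' Set.Iio (l : ℕ) := by
    intro l
    ext z
    constructor
    · rintro ⟨l', hl', rfl⟩
      exact ⟨l', hl', rfl⟩
    · rintro ⟨j, hj, rfl⟩
      have hj' : j < l := hj
      exact ⟨⟨j, hj'.trans l.2⟩, hj', rfl⟩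
  refine ⟨fun l => xs l, fun l => (pick (W l)).2, ?_, ?_, fun l => (hpick _ (hWne l l.2)).2.1, ?_⟩
  · intro l l' hll'
    by_contra hcon
    push Not at hcon
    have h1 := (hpick _ (hWne l l.2)).2.2 _ hcon _ (hpick _ (hWne l' l'.2)).2.1
    exact (hpick _ (hWne l' l'.2)).1 (hWmono (show (l : ℕ) ≤ l' from hll') h1)
  · rw [linearIndependent_iff_card_eq_finrank_span, Fintype.card_fin]
    have hr : Set.range (fun l : Fin n => xs l) = xs '' Set.Iio n := by
      ext z
      constructor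
      · rintro ⟨l, rfl⟩; exact ⟨l, l.2, rfl⟩
      · rintro ⟨j, hj, rfl⟩; exact ⟨⟨j, hj⟩, rfl⟩
    rw [Set.finrank, hr, ← hspan, hfr n le_rfl]
  · intro l μ' hμ' y hy
    rw [himg, ← hspan]
    exact (hpick _ (hWne l l.2)).2.2 _ hμ' y hy

end Pool.Agent.V2
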